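import Pool.Agent.KS6_91.TS.Equalizer
import Pool.Agent.KS6_91.TS.Group

/-!
# Cyclic systems: gadgets for groups of order a power of `q`

This adapts `Pool.Agent.KS6_91.TSa.{Basic, Group, Equalizer}` from unordered pairs to cyclic words of
length `q`, for any `q ≥ 2`.
-/

set_option autoImplicit false

namespace Pool.Agent.KS6_91.TSb

open Finset Pool.Agent.KS6_91.TSa

/-- rotation of cyclic words -/
def rot (q : ℕ) (A : Type) : Setoid (ZMod q → A) where
  r f g := ∃ c : ZMod q, ∀ i, g i = f (i + c)
  iseqv :=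
    { refl := fun f => ⟨0, fun i => by rw [add_zero]⟩
      symm := by
        rintro f g ⟨c, h⟩
        refine ⟨-c, fun i => ?_⟩
        rw [h, add_assoc, neg_add_cancel, add_zero]
      trans := by
        rintro f g k ⟨c, h⟩ ⟨c', h'⟩
        refine ⟨c' + c, fun i => ?_⟩
        rw [h', h, add_assoc] }

/-- cyclic words of length `q` -/
def Cyc (q : ℕ) (A : Type) : Type := Quotient (rot q A)

/-- the cyclic word of a word -/
def cyc {q : ℕ} {A : Type} (u : ZMod q → A) : Cyc q A := Quotient.mk (rot q A) u

lemma cyc_eq {q : ℕ} {A : Type} {u v : ZMod q → A} :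
    cyc u = cyc v ↔ ∃ c : ZMod q, ∀ i, v i = u (i + c) := by
  unfold cyc
  exact Quotient.eq (r := rot q A)

lemma cyc_surj {q : ℕ} {A : Type} (z : Cyc q A) : ∃ u, cyc u = z := Quotient.exists_rep z

/-- The systems built from the one-letter system, the cyclic words and composition. -/
inductive CSys (q : ℕ) : (A J V : Type) → ((J → A) → V) → Prop
  | base (A : Type) : CSys q A Unit A (fun u => u ())
  | cyc (A : Type) : CSys q A (ZMod q) (Cyc q A) (fun u => cyc u)
  | comp {A J V J' V' : Type} (val : (J → A) → V) (val' : (J' → V) → V') :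
      CSys q A J V val → CSys q V J' V' val' →
      CSys q A (J × J') V' (fun u => val' (fun j' => val (fun j => u (j, j'))))

lemma CSys.surj {q : ℕ} {A J V : Type} {val : (J → A) → V} (h : CSys q A J V val) :
    Function.Surjective val := by
  induction h with
  | base A => intro a; exact ⟨fun _ => a, rfl⟩
  | cyc A => intro z; exact cyc_surj z
  | comp val val' _ _ ih ih' =>
    intro z
    obtain ⟨v, hv⟩ := ih' z
    choose w hw using ih
    refine ⟨fun p => w (v p.2) p.1, ?_⟩
    have : (fun j' => val (fun j => w (v j') j)) = v := by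
      funext j'; exact hw (v j')
    simpa [this] using hv

lemma CSys.finJ {q : ℕ} [NeZero q] {A J V : Type} {val : (J → A) → V} (h : CSys q A J V val) :
    Finite J := by
  induction h with
  | base A => infer_instance
  | cyc A => infer_instance
  | comp val val' _ _ ih ih' => infer_instance

lemma CSys.finV {q : ℕ} [NeZero q] {A J V : Type} {val : (J → A) → V} (h : CSys q A J V val)
    [Finite A] : Finite V := by
  have := h.finJ
  exact Finite.of_surjective val h.surj

/-- Orbit property with a group of order a power of `q`. -/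
def QOP (q : ℕ) {A J V : Type} (val : (J → A) → V) : Prop :=
  ∃ (G : Type) (_ : Group G), (∃ k : ℕ, Nat.card G = q ^ k) ∧ ∃ act : G →* Equiv.Perm J,
    ∀ u u' : J → A, val u = val u' → ∃ g : G, u' = fun j => u (act g j)

/-- rotations -/
def rotHom (q : ℕ) : Multiplicative (ZMod q) →* Equiv.Perm (ZMod q) where
  toFun g := Equiv.addRight (Multiplicative.toAdd g)
  map_one' := by ext x; simp
  map_mul' g h := by
    apply Equiv.ext
    intro x
    show x + (Multiplicative.toAdd (g * h)) = x + Multiplicative.toAdd h + Multiplicative.toAdd g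
    rw [toAdd_mul]
    abel

theorem CSys.OP {q : ℕ} [NeZero q] {A J V : Type} {val : (J → A) → V} (h : CSys q A J V val) :
    QOP q val := by
  induction h with
  | base A =>
    refine ⟨Unit, inferInstance, ⟨0, by simp⟩, 1, ?_⟩
    intro u u' h
    exact ⟨1, by funext x; exact h.symm⟩
  | cyc A =>
    refine ⟨Multiplicative (ZMod q), inferInstance, ⟨1, ?_⟩, rotHom q, ?_⟩
    · rw [pow_one]
      show Nat.card (ZMod q) = q
      exact Nat.card_zmod q
    · intro u u' h
      obtain ⟨c, hc⟩ := cyc_eq.mp h
      exact ⟨Multiplicative.ofAdd c, funext hc⟩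
  | @comp A J V J' V' val val' hs hs' ih ih' =>
    obtain ⟨G, hG, ⟨k, hk⟩, act, hact⟩ := ih
    obtain ⟨G', hG', ⟨k', hk'⟩, act', hact'⟩ := ih'
    have hJ' := hs'.finJ
    have hcompat : ∀ g : G', (fnHom (J' := J') act).comp (phi (G := G) act' g).toMonoidHom
        = (MulAut.conj (fgHom (J := J) act' g)).toMonoidHom.comp (fnHom (J' := J') act) := by
      intro g
      ext f q
      · simp [fnHom, fgHom, phi]
      · simp [fnHom, fgHom, phi]
    refine ⟨SemidirectProduct (J' → G) G' (phi act'), inferInstance, ⟨k * Nat.card J' + k', ?_⟩,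
      SemidirectProduct.lift (fnHom act) (fgHom act') hcompat, ?_⟩
    · rw [SemidirectProduct.card, Nat.card_fun, hk, hk', ← pow_mul, ← pow_add]
    · intro u u' h
      obtain ⟨g', hg'⟩ := hact' _ _ h
      have h1 : ∀ j', ∃ g : G, (fun j => u' (j, j')) = fun j => u (act g j, act' g' j') := by
        intro j'
        have := congrFun hg' j'
        exact hact _ _ this.symm
      choose f hf using h1
      refine ⟨SemidirectProduct.inr g' * SemidirectProduct.inl f, ?_⟩
      funext q
      rw [map_mul, SemidirectProduct.lift_inr, SemidirectProduct.lift_inl]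
      have := congrFun (hf q.2) q.1
      simpa [fnHom, fgHom] using this

/-- A symmetric gadget on `m` variables with equally many occurrences of all variables. -/
def QGood (q : ℕ) (A : Type) (m : ℕ) : Prop :=
  ∃ (J V : Type) (_ : Fintype J) (val : (J → A) → V) (lam : J → Fin m ⊕ A),
    CSys q A J V val ∧ (∀ x y : Fin m → A, ms x = ms y → val (ev lam x) = val (ev lam y)) ∧
    ∃ μ, 0 < μ ∧ ∀ p, cnt lam p = μ

/-- The step. -/
lemma step {q : ℕ} (hq : 1 < q) [NeZero q] {A J V : Type} [Fintype J] {m : ℕ}
    (val : (J → A) → V)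
    (lam : Fin (m + 2) → J → Fin (m + 2) ⊕ A) (hsys : CSys q A J V val)
    (hT : HT (fun x i => val (ev (lam i) x)))
    (hs : ∃ s, 0 < s ∧ ∀ p, ∑ i, cnt (lam i) p = s) (D : Fin m → V) (a : V)
    (hG : QGood q V (m + 1)) :
    ∃ (J2 V2 : Type) (_ : Fintype J2) (val2 : (J2 → A) → V2)
      (lam2 : Fin (m + 2) → J2 → Fin (m + 2) ⊕ A), CSys q A J2 V2 val2 ∧
      HT (fun x i => val2 (ev (lam2 i) x)) ∧
      (∃ μ, 0 < μ ∧ ∀ i p, cnt (lam2 i) p = μ) ∧
      (∀ x i j, val (ev (lam i) x) = val (ev (lam j) x) →
        val2 (ev (lam2 i) x) = val2 (ev (lam2 j) x)) ∧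
      (∀ x i j, val (ev (lam i) x) = a → ms (fun l => val (ev (lam l) x))
          = val (ev (lam i) x) ::ₘ val (ev (lam j) x) ::ₘ ms D →
        val2 (ev (lam2 i) x) = val2 (ev (lam2 j) x)) := by
  classical
  obtain ⟨J', V', hJ', val', γ, hsys', hsym, μ, hμ, hcnt⟩ := hG
  obtain ⟨s, hs0, hs⟩ := hs
  have hne : (1 : ZMod q) ≠ 0 := by
    have : Fact (1 < q) := ⟨hq⟩
    exact one_ne_zero
  choose w hw using hsys.surj
  let T : (Fin (m + 2) → A) → Fin (m + 2) → V := fun x i => val (ev (lam i) x)
  let Γ : (Fin (m + 1) → V) → V' := fun y => val' (ev γ y)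
  let θ1 : Fin (m + 2) → Fin (m + 1) → J → Fin (m + 2) ⊕ A := fun i l => lam (i.succAbove l)
  let θ2 : Fin (m + 2) → Fin (m + 1) → J → Fin (m + 2) ⊕ A := fun i =>
    Fin.cons (lam i) (fun l j => Sum.inr (w (D l) j))
  let valc : (J × J' → A) → V' := fun u => val' (fun j' => val (fun j => u (j, j')))
  have hsysc : CSys q A (J × J') V' valc := CSys.comp val val' hsys hsys'
  obtain ⟨W, hW⟩ := hsysc.surj (Γ (Fin.cons a D))
  let lam2 : Fin (m + 2) → (J × J') × ZMod q → Fin (m + 2) ⊕ A := fun i p =>
    if p.2 = 0 then gsub γ w (θ1 i) p.1 else if p.2 = 1 then gsub γ w (θ2 i) p.1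
      else Sum.inr (W p.1)
  let val2 : ((J × J') × ZMod q → A) → Cyc q V' := fun u =>
    cyc (fun c => valc (fun p => u (p, c)))
  have hsys2 : CSys q A ((J × J') × ZMod q) (Cyc q V') val2 :=
    CSys.comp valc _ hsysc (CSys.cyc V')
  -- the value of the new gadgets
  have hval : ∀ x i, val2 (ev (lam2 i) x)
      = cyc (fun c => if c = 0 then Γ (fun l => T x (i.succAbove l)) else
          if c = 1 then Γ (Fin.cons (T x i) D) else Γ (Fin.cons a D)) := by
    intro x i
    have e3 : valc (ev (gsub γ w (θ1 i)) x) = Γ (fun l => T x (i.succAbove l)) := by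
      simp only [valc, Γ]
      rw [gsub_ev γ w (θ1 i) val hw x]
    have e4 : valc (ev (gsub γ w (θ2 i)) x) = Γ (Fin.cons (T x i) D) := by
      simp only [valc, Γ]
      rw [gsub_ev γ w (θ2 i) val hw x]
      congr 2
      funext l
      refine Fin.cases ?_ (fun l => ?_) l
      · simp [θ2, T]
      · simp only [θ2, Fin.cons_succ]
        exact hw (D l)
    simp only [val2]
    congr 1
    funext c
    by_cases h0 : c = 0
    · have e1 : (fun p => ev (lam2 i) x (p, c)) = ev (gsub γ w (θ1 i)) x := by
        funext p; simp [ev, lam2, h0]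
      rw [e1, e3, if_pos h0]
    · rw [if_neg h0]
      by_cases h1 : c = 1
      · have e2 : (fun p => ev (lam2 i) x (p, c)) = ev (gsub γ w (θ2 i)) x := by
          funext p; simp [ev, lam2, h1, hne]
        rw [e2, e4, if_pos h1]
      · have e2 : (fun p => ev (lam2 i) x (p, c)) = W := by
          funext p; simp [ev, lam2, h1, h0]
        rw [e2, hW, if_neg h1]
  have hΓ : ∀ y z : Fin (m + 1) → V, ms y = ms z → Γ y = Γ z := hsym
  refine ⟨(J × J') × ZMod q, Cyc q V', inferInstance, val2, lam2, hsys2, ?_, ?_, ?_, ?_⟩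
  · intro x y hxy i j hij
    have hTij : T x i = T y j := hT x y hxy i j hij
    have hms : ms (T x) = ms (T y) := HT.ms_eq hT hxy
    show val2 (ev (lam2 i) x) = val2 (ev (lam2 j) y)
    rw [hval, hval, hTij]
    rw [ms_succAbove (T x) i, ms_succAbove (T y) j, hTij] at hms
    rw [hΓ _ _ ((Multiset.cons_inj_right _).1 hms)]
  · refine ⟨μ * s, Nat.mul_pos hμ hs0, ?_⟩
    intro i p
    have h1 : cnt (lam2 i) p = cnt (gsub γ w (θ1 i)) p + cnt (gsub γ w (θ2 i)) p := by
      have hz : cnt (lam2 i) p = ∑ c : ZMod q, ∑ r : J × J', ind (lam2 i (r, c)) p := by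
        unfold cnt
        rw [Fintype.sum_prod_type_right]
      rw [hz]
      have hc : ∀ c : ZMod q, ∑ r : J × J', ind (lam2 i (r, c)) p =
          (if c = 0 then cnt (gsub γ w (θ1 i)) p else 0) +
            (if c = 1 then cnt (gsub γ w (θ2 i)) p else 0) := by
        intro c
        by_cases h0 : c = 0
        · subst h0
          rw [if_pos rfl, if_neg (Ne.symm hne), add_zero]
          unfold cnt
          simp [lam2]
        · rw [if_neg h0, zero_add]
          by_cases h1 : c = 1
          · subst h1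
            rw [if_pos rfl]
            unfold cnt
            simp [lam2, hne]
          · rw [if_neg h1]
            refine Finset.sum_eq_zero fun r _ => ?_
            have : lam2 i (r, c) = Sum.inr (W r) := by simp [lam2, h0, h1]
            rw [this]
            exact ind_inr _ _
      simp_rw [hc]
      rw [Finset.sum_add_distrib, Finset.sum_ite_eq' , Finset.sum_ite_eq']
      simp
    rw [h1, gsub_cnt, gsub_cnt]
    simp_rw [hcnt]
    rw [← Finset.mul_sum, ← Finset.mul_sum, ← Nat.mul_add]
    congr 1
    rw [← hs p, Fin.sum_univ_succAbove _ i, Fin.sum_univ_succ (fun l => cnt (θ2 i l) p)]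
    have h0 : ∀ l : Fin m, cnt (θ2 i l.succ) p = 0 := by
      intro l
      simp only [θ2, Fin.cons_succ]
      unfold cnt
      refine Finset.sum_eq_zero fun j _ => ind_inr _ _
    have h00 : θ2 i 0 = lam i := by simp [θ2]
    rw [h00]
    simp_rw [h0]
    simp only [Finset.sum_const_zero, add_zero]
    rw [add_comm]
  · intro x i j hij
    have hTij : T x i = T x j := hij
    rw [hval, hval, hTij]
    have hms : ms (T x) = ms (T x) := rfl
    conv_lhs at hms => rw [ms_succAbove (T x) i]
    conv_rhs at hms => rw [ms_succAbove (T x) j]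
    rw [hTij] at hms
    rw [hΓ _ _ ((Multiset.cons_inj_right _).1 hms)]
  · intro x i j hia hij
    have hij' : ms (T x) = T x i ::ₘ T x j ::ₘ ms D := hij
    have hia' : T x i = a := hia
    rw [hval, hval]
    have ha : Γ (fun l => T x (i.succAbove l)) = Γ (Fin.cons (T x j) D) := by
      apply hΓ
      rw [ms_cons]
      have h1 := hij'
      rw [ms_succAbove (T x) i] at h1
      exact (Multiset.cons_inj_right _).1 h1
    have hb : Γ (fun l => T x (j.succAbove l)) = Γ (Fin.cons (T x i) D) := by
      apply hΓ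
      rw [ms_cons]
      have h1 := hij'
      rw [ms_succAbove (T x) j, Multiset.cons_swap] at h1
      exact (Multiset.cons_inj_right _).1 h1
    rw [ha, hb, hia']
    rw [cyc_eq]
    refine ⟨-1, fun c => ?_⟩
    by_cases h0 : c = 0
    · subst h0
      rw [if_pos rfl, zero_add]
      have h2 : (-1 : ZMod q) ≠ 0 := neg_ne_zero.mpr hne
      rw [if_neg h2]
      split_ifs <;> rfl
    · rw [if_neg h0]
      by_cases h1 : c = 1
      · subst h1
        rw [if_pos rfl, add_neg_cancel, if_pos rfl]
      · rw [if_neg h1]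
        have h2 : c + -1 ≠ 0 := by
          intro h
          apply h1
          rw [← sub_eq_add_neg, sub_eq_zero] at h
          exact h
        rw [if_neg h2]
        split_ifs <;> rfl

/-- The loop. -/
lemma loop {q : ℕ} (hq : 1 < q) [NeZero q] {A : Type} [Finite A] [Nonempty A] {m : ℕ}
    (IH : ∀ V : Type, Finite V → Nonempty V → QGood q V (m + 1)) :
    ∀ n : ℕ, ∀ (J V : Type) (_ : Fintype J) (val : (J → A) → V)
      (lam : Fin (m + 2) → J → Fin (m + 2) ⊕ A), CSys q A J V val →
      HT (fun x i => val (ev (lam i) x)) → (∃ s, 0 < s ∧ ∀ p, ∑ i, cnt (lam i) p = s) →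
      Set.ncard {p : (Fin (m + 2) → A) × Fin (m + 2) × Fin (m + 2) |
        val (ev (lam p.2.1) p.1) ≠ val (ev (lam p.2.2) p.1)} ≤ n →
      QGood q A (m + 2) := by
  intro n
  induction n with
  | zero =>
    intro J V hJ val lam hsys hT hs hn
    have hV : Finite V := hsys.finV
    have hVn : Nonempty V := ⟨val (fun _ => Classical.arbitrary A)⟩
    obtain ⟨J2, V2, hJ2, val2, lam2, hsys2, hT2, hμ2, hpres, _⟩ :=
      step hq val lam hsys hT hs (fun _ => Classical.arbitrary V) (Classical.arbitrary V)
        (IH V hV hVn)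
    have hfin : Finite ((Fin (m + 2) → A) × Fin (m + 2) × Fin (m + 2)) := inferInstance
    have hbad : {p : (Fin (m + 2) → A) × Fin (m + 2) × Fin (m + 2) |
        val (ev (lam p.2.1) p.1) ≠ val (ev (lam p.2.2) p.1)} = ∅ := by
      have h0 := Nat.le_zero.1 hn
      rwa [Set.ncard_eq_zero (Set.toFinite _)] at h0
    have hall : ∀ x i j, val (ev (lam i) x) = val (ev (lam j) x) := by
      intro x i j
      by_contra hne
      have : (x, i, j) ∈ {p : (Fin (m + 2) → A) × Fin (m + 2) × Fin (m + 2) |
        val (ev (lam p.2.1) p.1) ≠ val (ev (lam p.2.2) p.1)} := hne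
      rw [hbad] at this
      exact this
    obtain ⟨μ, hμ, hcnt⟩ := hμ2
    refine ⟨J2, V2, hJ2, val2, lam2 0, hsys2, ?_, μ, hμ, hcnt 0⟩
    intro x y hxy
    have : x 0 ∈ ms y := by
      rw [← hxy]
      unfold ms
      exact Multiset.mem_map_of_mem x (Finset.mem_univ (0 : Fin (m + 2)))
    unfold ms at this
    rw [Multiset.mem_map] at this
    obtain ⟨j, _, hj⟩ := this
    exact (hT2 x y hxy 0 j hj.symm).trans (hpres y j 0 (hall y j 0))
  | succ n ih =>
    intro J V hJ val lam hsys hT hs hn
    by_cases hall : ∀ x i j, val (ev (lam i) x) = val (ev (lam j) x)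
    · refine ih J V hJ val lam hsys hT hs ?_
      have : {p : (Fin (m + 2) → A) × Fin (m + 2) × Fin (m + 2) |
        val (ev (lam p.2.1) p.1) ≠ val (ev (lam p.2.2) p.1)} = ∅ := by
        ext p
        simp only [Set.mem_ofPred_eq, Set.mem_empty_iff_false, iff_false, not_not]
        exact hall _ _ _
      rw [this, Set.ncard_empty]
      exact Nat.zero_le _
    · push Not at hall
      obtain ⟨x0, i0, j0, hne⟩ := hall
      have hij : i0 ≠ j0 := by
        intro h; apply hne; rw [h]
      have hV : Finite V := hsys.finV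
      have hVn : Nonempty V := ⟨val (fun _ => Classical.arbitrary A)⟩
      obtain ⟨j1, hj1⟩ := Fin.exists_succAbove_eq (x := j0) (y := i0) hij.symm
      let T0 : Fin (m + 2) → V := fun l => val (ev (lam l) x0)
      let D : Fin m → V := fun k => T0 (i0.succAbove (j1.succAbove k))
      have hD : ms T0 = T0 i0 ::ₘ T0 j0 ::ₘ ms D := by
        rw [ms_succAbove T0 i0, ms_succAbove (fun l => T0 (i0.succAbove l)) j1, hj1]
      obtain ⟨J2, V2, hJ2, val2, lam2, hsys2, hT2, hμ2, hpres, hnew⟩ :=
        step hq val lam hsys hT hs D (T0 i0) (IH V hV hVn)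
      refine ih J2 V2 hJ2 val2 lam2 hsys2 hT2 ?_ ?_
      · obtain ⟨μ, hμ, hcnt⟩ := hμ2
        refine ⟨(m + 2) * μ, Nat.mul_pos (by omega) hμ, ?_⟩
        intro p
        simp_rw [hcnt]
        simp
      · have hlt : Set.ncard {p : (Fin (m + 2) → A) × Fin (m + 2) × Fin (m + 2) |
            val2 (ev (lam2 p.2.1) p.1) ≠ val2 (ev (lam2 p.2.2) p.1)} <
            Set.ncard {p : (Fin (m + 2) → A) × Fin (m + 2) × Fin (m + 2) |
            val (ev (lam p.2.1) p.1) ≠ val (ev (lam p.2.2) p.1)} := by
          apply Set.ncard_lt_ncard _ (Set.toFinite _)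
          refine ⟨?_, ?_⟩
          · intro p hp hp'
            exact hp (hpres _ _ _ hp')
          · intro hsub
            have h1 : (x0, i0, j0) ∈ {p : (Fin (m + 2) → A) × Fin (m + 2) × Fin (m + 2) |
              val (ev (lam p.2.1) p.1) ≠ val (ev (lam p.2.2) p.1)} := hne
            exact (hsub h1) (hnew x0 i0 j0 rfl hD)
        omega

theorem equalizer (q : ℕ) (hq : 1 < q) [NeZero q] :
    ∀ m : ℕ, ∀ A : Type, Finite A → Nonempty A → QGood q A (m + 1) := by
  intro m
  induction m with
  | zero =>
    intro A _ _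
    refine ⟨Unit, A, inferInstance, _, fun _ => Sum.inl 0, CSys.base A, ?_, 1, one_pos, ?_⟩
    · intro x y hxy
      unfold ms at hxy
      simp at hxy
      simpa [ev] using hxy
    · intro p
      have : p = 0 := Fin.eq_zero p
      subst this
      simp [cnt, ind_inl]
  | succ m ih =>
    intro A hA hn
    refine loop hq ih _ Unit A inferInstance _ (fun i _ => Sum.inl i) (CSys.base A) ?_ ?_ le_rfl
    · intro x y _ i j hij
      simpa [ev] using hij
    · refine ⟨1, one_pos, fun p => ?_⟩
      rw [Finset.sum_eq_single p]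
      · simp [cnt, ind_inl]
      · intro b _ hb
        simp [cnt, ind_inl_ne hb]
      · intro h; exact absurd (Finset.mem_univ _) h

end Pool.Agent.KS6_91.TSb
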