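import Pool.Agent.KS6_91.TS.Basic

set_option autoImplicit false

namespace Pool.Agent.KS6_91.TSa

open Finset

/-- The multiset of values of a finite family. -/
def ms {A : Type} {m : ℕ} (x : Fin m → A) : Multiset A := Multiset.map x Finset.univ.val

lemma ms_succAbove {A : Type} {m : ℕ} (g : Fin (m + 1) → A) (i : Fin (m + 1)) :
    ms g = g i ::ₘ ms (fun l => g (i.succAbove l)) := by
  unfold ms
  rw [Fin.univ_succAbove m i, Finset.cons_val, Multiset.map_cons, Finset.map_val,
    Multiset.map_map]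
  rfl

lemma ms_cons {A : Type} {m : ℕ} (a : A) (f : Fin m → A) :
    ms (Fin.cons a f : Fin (m + 1) → A) = a ::ₘ ms f := by
  rw [ms_succAbove _ 0]
  simp

lemma ms_perm {A : Type} {m : ℕ} (x : Fin m → A) (e : Equiv.Perm (Fin m)) :
    ms (fun i => x (e i)) = ms x := by
  unfold ms
  have h : (Finset.univ : Finset (Fin m)).val.map e = (Finset.univ : Finset (Fin m)).val := by
    exact Multiset.map_univ_val_equiv e
  conv_rhs => rw [← h]
  rw [Multiset.map_map]
  rfl

/-- Composition of a gadget `γ` over the alphabet `V` with gadgets over `A`. -/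
def gsub {A V J J' I : Type} {k : ℕ} (γ : J' → Fin k ⊕ V) (w : V → J → A)
    (θ : Fin k → J → I ⊕ A) : J × J' → I ⊕ A :=
  fun q => Sum.elim (fun l => θ l q.1) (fun v => Sum.inr (w v q.1)) (γ q.2)

lemma gsub_ev {A V J J' I : Type} {k : ℕ} (γ : J' → Fin k ⊕ V) (w : V → J → A)
    (θ : Fin k → J → I ⊕ A) (val : (J → A) → V) (hw : ∀ v, val (w v) = v) (x : I → A) :
    (fun j' => val (fun j => ev (gsub γ w θ) x (j, j'))) = ev γ (fun l => val (ev (θ l) x)) := by
  funext j'
  unfold ev gsub
  dsimp only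
  cases γ j' with
  | inl l => rfl
  | inr v => exact hw v

lemma gsub_cnt {A V J J' I : Type} [Fintype J] [Fintype J'] {k : ℕ} (γ : J' → Fin k ⊕ V)
    (w : V → J → A) (θ : Fin k → J → I ⊕ A) (p : I) :
    cnt (gsub γ w θ) p = ∑ l, cnt γ l * cnt (θ l) p := by
  have h := sum_elim_count γ (fun z => ∑ j, ind
    (Sum.elim (fun l => θ l j) (fun v => (Sum.inr (w v j) : I ⊕ A)) z) p)
    (by intro a; simp [ind_inr])
  have h2 : cnt (gsub γ w θ) p = ∑ i, ∑ j, ind
    (Sum.elim (fun l => θ l j) (fun v => (Sum.inr (w v j) : I ⊕ A)) (γ i)) p := by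
    unfold cnt gsub
    rw [Fintype.sum_prod_type_right]
  rw [h2, h]
  rfl

/-- A symmetric gadget on `m` variables with equally many occurrences of all variables. -/
def Good (A : Type) (m : ℕ) : Prop :=
  ∃ (J V : Type) (_ : Fintype J) (val : (J → A) → V) (lam : J → Fin m ⊕ A),
    Sys A J V val ∧ (∀ x y : Fin m → A, ms x = ms y → val (ev lam x) = val (ev lam y)) ∧
    ∃ μ, 0 < μ ∧ ∀ p, cnt lam p = μ

/-- Property of a family of gadgets: the value of the `i`-th gadget depends only on the letter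
`x i` and the multiset of all letters. -/
def HT {A V : Type} {m : ℕ} (T : (Fin m → A) → Fin m → V) : Prop :=
  ∀ x y, ms x = ms y → ∀ i j, x i = y j → T x i = T y j

lemma HT.ms_eq {A V : Type} {m : ℕ} {T : (Fin m → A) → Fin m → V} (h : HT T)
    {x y : Fin m → A} (hxy : ms x = ms y) : ms (T x) = ms (T y) := by
  classical
  rcases Nat.eq_zero_or_pos m with hm | hm
  · subst hm
    unfold ms
    simp
  · let F : A → V := fun a => if h : ∃ i, x i = a then T x h.choose else T x ⟨0, hm⟩
    have h1 : ∀ z : Fin m → A, ms x = ms z → ∀ l, T z l = F (z l) := by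
      intro z hz l
      have : z l ∈ ms x := by
        rw [hz]
        unfold ms
        exact Multiset.mem_map_of_mem z (Finset.mem_univ l)
      unfold ms at this
      rw [Multiset.mem_map] at this
      obtain ⟨i, _, hi⟩ := this
      have hex : ∃ i, x i = z l := ⟨i, hi⟩
      simp only [F]
      rw [dif_pos hex]
      exact (h x z hz _ _ hex.choose_spec).symm
    have h2 : ∀ z : Fin m → A, ms x = ms z → ms (T z) = Multiset.map F (ms z) := by
      intro z hz
      unfold ms
      rw [Multiset.map_map]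
      refine Multiset.map_congr rfl ?_
      intro l _
      exact h1 z hz l
    rw [h2 x rfl, h2 y hxy, hxy]

/-- The step: from the family `T` and the symmetric gadget `Γ` form the new family. -/
lemma step {A J V : Type} [Fintype J] {m : ℕ} (val : (J → A) → V)
    (lam : Fin (m + 2) → J → Fin (m + 2) ⊕ A) (hsys : Sys A J V val)
    (hT : HT (fun x i => val (ev (lam i) x)))
    (hs : ∃ s, 0 < s ∧ ∀ p, ∑ i, cnt (lam i) p = s) (D : Fin m → V)
    (hG : Good V (m + 1)) :
    ∃ (J2 V2 : Type) (_ : Fintype J2) (val2 : (J2 → A) → V2)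
      (lam2 : Fin (m + 2) → J2 → Fin (m + 2) ⊕ A), Sys A J2 V2 val2 ∧
      HT (fun x i => val2 (ev (lam2 i) x)) ∧
      (∃ μ, 0 < μ ∧ ∀ i p, cnt (lam2 i) p = μ) ∧
      (∀ x i j, val (ev (lam i) x) = val (ev (lam j) x) →
        val2 (ev (lam2 i) x) = val2 (ev (lam2 j) x)) ∧
      (∀ x i j, ms (fun l => val (ev (lam l) x))
          = val (ev (lam i) x) ::ₘ val (ev (lam j) x) ::ₘ ms D →
        val2 (ev (lam2 i) x) = val2 (ev (lam2 j) x)) := by
  obtain ⟨J', V', hJ', val', γ, hsys', hsym, μ, hμ, hcnt⟩ := hG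
  obtain ⟨s, hs0, hs⟩ := hs
  choose w hw using hsys.surj
  let T : (Fin (m + 2) → A) → Fin (m + 2) → V := fun x i => val (ev (lam i) x)
  let Γ : (Fin (m + 1) → V) → V' := fun y => val' (ev γ y)
  let θ1 : Fin (m + 2) → Fin (m + 1) → J → Fin (m + 2) ⊕ A := fun i l => lam (i.succAbove l)
  let θ2 : Fin (m + 2) → Fin (m + 1) → J → Fin (m + 2) ⊕ A := fun i =>
    Fin.cons (lam i) (fun l j => Sum.inr (w (D l) j))
  let lam2 : Fin (m + 2) → (J × J') × Bool → Fin (m + 2) ⊕ A := fun i q =>
    if q.2 = false then gsub γ w (θ1 i) q.1 else gsub γ w (θ2 i) q.1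
  let valc : (J × J' → A) → V' := fun u => val' (fun j' => val (fun j => u (j, j')))
  let val2 : ((J × J') × Bool → A) → Sym2 V' := fun u =>
    s(valc (fun q => u (q, false)), valc (fun q => u (q, true)))
  have hsys2 : Sys A ((J × J') × Bool) (Sym2 V') val2 :=
    Sys.comp valc _ (Sys.comp val val' hsys hsys') (Sys.pair V')
  -- the value of the new gadgets
  have hval : ∀ x i, val2 (ev (lam2 i) x)
      = s(Γ (fun l => T x (i.succAbove l)), Γ (Fin.cons (T x i) D)) := by
    intro x i
    have e1 : (fun q => ev (lam2 i) x (q, false)) = ev (gsub γ w (θ1 i)) x := by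
      funext q; simp [ev, lam2]
    have e2 : (fun q => ev (lam2 i) x (q, true)) = ev (gsub γ w (θ2 i)) x := by
      funext q; simp [ev, lam2]
    have e3 : valc (ev (gsub γ w (θ1 i)) x) = Γ (fun l => T x (i.succAbove l)) := by
      simp only [valc, Γ]
      rw [gsub_ev γ w (θ1 i) val hw x]
    have e4 : valc (ev (gsub γ w (θ2 i)) x) = Γ (Fin.cons (T x i) D) := by
      simp only [valc, Γ]
      rw [gsub_ev γ w (θ2 i) val hw x]
      congr 2
      funext l
      refine Fin.cases ?_ (fun l => ?_) l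
      · simp [θ2, T]
      · simp only [θ2, Fin.cons_succ]
        exact hw (D l)
    simp only [val2]
    rw [e1, e2, e3, e4]
  have hΓ : ∀ y z : Fin (m + 1) → V, ms y = ms z → Γ y = Γ z := hsym
  refine ⟨(J × J') × Bool, Sym2 V', inferInstance, val2, lam2, hsys2, ?_, ?_, ?_, ?_⟩
  · intro x y hxy i j hij
    have hTij : T x i = T y j := hT x y hxy i j hij
    have hms : ms (T x) = ms (T y) := HT.ms_eq hT hxy
    show val2 (ev (lam2 i) x) = val2 (ev (lam2 j) y)
    rw [hval, hval, hTij]
    rw [ms_succAbove (T x) i, ms_succAbove (T y) j, hTij] at hms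
    rw [hΓ _ _ ((Multiset.cons_inj_right _).1 hms)]
  · refine ⟨μ * s, Nat.mul_pos hμ hs0, ?_⟩
    intro i p
    have h1 : cnt (lam2 i) p = cnt (gsub γ w (θ1 i)) p + cnt (gsub γ w (θ2 i)) p := by
      unfold cnt
      rw [Fintype.sum_prod_type_right]
      simp [lam2, add_comm]
    rw [h1, gsub_cnt, gsub_cnt]
    simp_rw [hcnt]
    rw [← Finset.mul_sum, ← Finset.mul_sum, ← Nat.mul_add]
    congr 1
    rw [← hs p, Fin.sum_univ_succAbove _ i, Fin.sum_univ_succ (fun l => cnt (θ2 i l) p)]
    have h0 : ∀ l : Fin m, cnt (θ2 i l.succ) p = 0 := by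
      intro l
      simp only [θ2, Fin.cons_succ]
      unfold cnt
      refine Finset.sum_eq_zero fun j _ => ind_inr _ _
    have h00 : θ2 i 0 = lam i := by simp [θ2]
    rw [h00]
    simp_rw [h0]
    simp only [Finset.sum_const_zero, add_zero]
    rw [add_comm]
  · intro x i j hij
    have hTij : T x i = T x j := hij
    rw [hval, hval, hTij]
    have hms : ms (T x) = ms (T x) := rfl
    conv_lhs at hms => rw [ms_succAbove (T x) i]
    conv_rhs at hms => rw [ms_succAbove (T x) j]
    rw [hTij] at hms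
    rw [hΓ _ _ ((Multiset.cons_inj_right _).1 hms)]
  · intro x i j hij
    have hij' : ms (T x) = T x i ::ₘ T x j ::ₘ ms D := hij
    rw [hval, hval]
    have ha : Γ (fun l => T x (i.succAbove l)) = Γ (Fin.cons (T x j) D) := by
      apply hΓ
      rw [ms_cons]
      have h1 := hij'
      rw [ms_succAbove (T x) i] at h1
      exact (Multiset.cons_inj_right _).1 h1
    have hb : Γ (fun l => T x (j.succAbove l)) = Γ (Fin.cons (T x i) D) := by
      apply hΓ
      rw [ms_cons]
      have h1 := hij'
      rw [ms_succAbove (T x) j, Multiset.cons_swap] at h1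
      exact (Multiset.cons_inj_right _).1 h1
    rw [ha, hb]
    exact Sym2.eq_swap

/-- The loop. -/
lemma loop {A : Type} [Finite A] [Nonempty A] {m : ℕ}
    (IH : ∀ V : Type, Finite V → Nonempty V → Good V (m + 1)) :
    ∀ n : ℕ, ∀ (J V : Type) (_ : Fintype J) (val : (J → A) → V)
      (lam : Fin (m + 2) → J → Fin (m + 2) ⊕ A), Sys A J V val →
      HT (fun x i => val (ev (lam i) x)) → (∃ s, 0 < s ∧ ∀ p, ∑ i, cnt (lam i) p = s) →
      Set.ncard {p : (Fin (m + 2) → A) × Fin (m + 2) × Fin (m + 2) |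
        val (ev (lam p.2.1) p.1) ≠ val (ev (lam p.2.2) p.1)} ≤ n →
      Good A (m + 2) := by
  intro n
  induction n with
  | zero =>
    intro J V hJ val lam hsys hT hs hn
    have hV : Finite V := hsys.finV
    have hVn : Nonempty V := ⟨val (fun _ => Classical.arbitrary A)⟩
    obtain ⟨J2, V2, hJ2, val2, lam2, hsys2, hT2, hμ2, hpres, _⟩ :=
      step val lam hsys hT hs (fun _ => Classical.arbitrary V) (IH V hV hVn)
    have hfin : Finite ((Fin (m + 2) → A) × Fin (m + 2) × Fin (m + 2)) := inferInstance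
    have hbad : {p : (Fin (m + 2) → A) × Fin (m + 2) × Fin (m + 2) |
        val (ev (lam p.2.1) p.1) ≠ val (ev (lam p.2.2) p.1)} = ∅ := by
      have h0 := Nat.le_zero.1 hn
      rwa [Set.ncard_eq_zero (Set.toFinite _)] at h0
    have hall : ∀ x i j, val (ev (lam i) x) = val (ev (lam j) x) := by
      intro x i j
      by_contra hne
      have : (x, i, j) ∈ {p : (Fin (m + 2) → A) × Fin (m + 2) × Fin (m + 2) |
        val (ev (lam p.2.1) p.1) ≠ val (ev (lam p.2.2) p.1)} := hne
      rw [hbad] at this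
      exact this
    obtain ⟨μ, hμ, hcnt⟩ := hμ2
    refine ⟨J2, V2, hJ2, val2, lam2 0, hsys2, ?_, μ, hμ, hcnt 0⟩
    intro x y hxy
    have : x 0 ∈ ms y := by
      rw [← hxy]
      unfold ms
      exact Multiset.mem_map_of_mem x (Finset.mem_univ (0 : Fin (m + 2)))
    unfold ms at this
    rw [Multiset.mem_map] at this
    obtain ⟨j, _, hj⟩ := this
    exact (hT2 x y hxy 0 j hj.symm).trans (hpres y j 0 (hall y j 0))
  | succ n ih =>
    intro J V hJ val lam hsys hT hs hn
    by_cases hall : ∀ x i j, val (ev (lam i) x) = val (ev (lam j) x)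
    · refine ih J V hJ val lam hsys hT hs ?_
      have : {p : (Fin (m + 2) → A) × Fin (m + 2) × Fin (m + 2) |
        val (ev (lam p.2.1) p.1) ≠ val (ev (lam p.2.2) p.1)} = ∅ := by
        ext p
        simp only [Set.mem_setOf_eq, Set.mem_empty_iff_false, iff_false, not_not]
        exact hall _ _ _
      rw [this, Set.ncard_empty]
      exact Nat.zero_le _
    · push Not at hall
      obtain ⟨x0, i0, j0, hne⟩ := hall
      have hij : i0 ≠ j0 := by
        intro h; apply hne; rw [h]
      have hV : Finite V := hsys.finV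
      have hVn : Nonempty V := ⟨val (fun _ => Classical.arbitrary A)⟩
      obtain ⟨j1, hj1⟩ := Fin.exists_succAbove_eq (x := j0) (y := i0) hij.symm
      let T0 : Fin (m + 2) → V := fun l => val (ev (lam l) x0)
      let D : Fin m → V := fun k => T0 (i0.succAbove (j1.succAbove k))
      have hD : ms T0 = T0 i0 ::ₘ T0 j0 ::ₘ ms D := by
        rw [ms_succAbove T0 i0, ms_succAbove (fun l => T0 (i0.succAbove l)) j1, hj1]
      obtain ⟨J2, V2, hJ2, val2, lam2, hsys2, hT2, hμ2, hpres, hnew⟩ :=
        step val lam hsys hT hs D (IH V hV hVn)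
      refine ih J2 V2 hJ2 val2 lam2 hsys2 hT2 ?_ ?_
      · obtain ⟨μ, hμ, hcnt⟩ := hμ2
        refine ⟨(m + 2) * μ, Nat.mul_pos (by omega) hμ, ?_⟩
        intro p
        simp_rw [hcnt]
        simp
      · have hlt : Set.ncard {p : (Fin (m + 2) → A) × Fin (m + 2) × Fin (m + 2) |
            val2 (ev (lam2 p.2.1) p.1) ≠ val2 (ev (lam2 p.2.2) p.1)} <
            Set.ncard {p : (Fin (m + 2) → A) × Fin (m + 2) × Fin (m + 2) |
            val (ev (lam p.2.1) p.1) ≠ val (ev (lam p.2.2) p.1)} := by
          apply Set.ncard_lt_ncard _ (Set.toFinite _)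
          refine ⟨?_, ?_⟩
          · intro p hp hp'
            exact hp (hpres _ _ _ hp')
          · intro hsub
            have h1 : (x0, i0, j0) ∈ {p : (Fin (m + 2) → A) × Fin (m + 2) × Fin (m + 2) |
              val (ev (lam p.2.1) p.1) ≠ val (ev (lam p.2.2) p.1)} := hne
            exact (hsub h1) (hnew x0 i0 j0 hD)
        omega

theorem equalizer : ∀ m : ℕ, ∀ A : Type, Finite A → Nonempty A → Good A (m + 1) := by
  intro m
  induction m with
  | zero =>
    intro A _ _
    refine ⟨Unit, A, inferInstance, _, fun _ => Sum.inl 0, Sys.base A, ?_, 1, one_pos, ?_⟩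
    · intro x y hxy
      unfold ms at hxy
      simp at hxy
      simpa [ev] using hxy
    · intro p
      have : p = 0 := Fin.eq_zero p
      subst this
      simp [cnt, ind_inl]
  | succ m ih =>
    intro A hA hn
    refine loop ih _ Unit A inferInstance _ (fun i _ => Sum.inl i) (Sys.base A) ?_ ?_ le_rfl
    · intro x y _ i j hij
      simpa [ev] using hij
    · refine ⟨1, one_pos, fun p => ?_⟩
      rw [Finset.sum_eq_single p]
      · simp [cnt, ind_inl]
      · intro b _ hb
        simp [cnt, ind_inl_ne hb]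
      · intro h; exact absurd (Finset.mem_univ _) h

end Pool.Agent.KS6_91.TSa
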