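import Mathlib

/-!
# Groups of linear isometries with an abelian subgroup of bounded index

Every nonzero invariant subspace contains a nonzero invariant subspace of bounded dimension.
-/

set_option autoImplicit false

namespace Pool.Agent.KS6_91.TS

open Module

variable {E : Type*} [NormedAddCommGroup E] [InnerProductSpace ℝ E] [FiniteDimensional ℝ E]

/-- a symmetric operator which commutes with a family of operators is a scalar on a minimal
invariant subspace -/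
lemma scalar_of_symm {ι : Type*} (B : ι → (E →ₗ[ℝ] E)) (U : Submodule ℝ E) (hne : U ≠ ⊥)
    (hB : ∀ i, ∀ x ∈ U, B i x ∈ U)
    (hmin : ∀ V : Submodule ℝ E, V ≤ U → V ≠ ⊥ → (∀ i, ∀ x ∈ V, B i x ∈ V) → V = U)
    (s : E →ₗ[ℝ] E) (hs : ∀ x y, inner ℝ (s x) y = inner ℝ x (s y)) (hsU : ∀ x ∈ U, s x ∈ U)
    (hc : ∀ i x, s (B i x) = B i (s x)) : ∃ c : ℝ, ∀ x ∈ U, s x = c • x := by
  have hnt : Nontrivial U := Submodule.nontrivial_iff_ne_bot.2 hne
  let s' : U →ₗ[ℝ] U := s.restrict hsU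
  have hs' : s'.IsSymmetric := by
    intro x y
    show inner ℝ (s x : E) (y : E) = inner ℝ (x : E) (s y : E)
    exact hs _ _
  obtain ⟨c, u, hcu, hu0⟩ : ∃ (c : ℝ) (u : U), s' u = c • u ∧ u ≠ 0 := by
    obtain ⟨u, hu⟩ := hs'.hasEigenvalue_iSup_of_finiteDimensional.exists_hasEigenvector
    exact ⟨_, u, hu.apply_eq_smul, hu.2⟩
  refine ⟨c, ?_⟩
  let V : Submodule ℝ E := U ⊓ LinearMap.ker (s - c • LinearMap.id)
  have hVmem : ∀ x, x ∈ V ↔ x ∈ U ∧ s x = c • x := by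
    intro x
    rw [Submodule.mem_inf, LinearMap.mem_ker, LinearMap.sub_apply, LinearMap.smul_apply,
      LinearMap.id_apply, sub_eq_zero]
  have hV : V = U := by
    apply hmin V inf_le_left
    · intro hbot
      have h1 : (u : E) ∈ V := (hVmem _).2 ⟨u.2, congrArg Subtype.val hcu⟩
      rw [hbot] at h1
      exact hu0 (Subtype.ext ((Submodule.mem_bot ℝ).1 h1))
    · intro i x hx
      rw [hVmem] at hx ⊢
      refine ⟨hB i x hx.1, ?_⟩
      rw [hc, hx.2, map_smul]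
  intro x hx
  rw [← hV] at hx
  exact ((hVmem x).1 hx).2

/-- a nonzero subspace invariant under an abelian group of linear isometries contains a nonzero
invariant subspace of dimension at most two -/
lemma abel {G : Type*} [Group G] (L : G → (E ≃ₗᵢ[ℝ] E)) (hL : ∀ g h x, L (g * h) x = L g (L h x))
    (hL1 : ∀ x, L 1 x = x) (A : Subgroup G) (hA : ∀ a ∈ A, ∀ b ∈ A, a * b = b * a)
    (M : Submodule ℝ E) (hM : M ≠ ⊥) (hAM : ∀ a ∈ A, ∀ x ∈ M, L a x ∈ M) :
    ∃ U : Submodule ℝ E, U ≤ M ∧ U ≠ ⊥ ∧ (∀ a ∈ A, ∀ x ∈ U, L a x ∈ U) ∧ finrank ℝ U ≤ 2 := by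
  classical
  obtain ⟨U, ⟨hUM, hUne, hUA⟩, hmin⟩ := (wellFounded_lt (α := Submodule ℝ E)).has_min
    {U | U ≤ M ∧ U ≠ ⊥ ∧ ∀ a ∈ A, ∀ x ∈ U, L a x ∈ U} ⟨M, le_rfl, hM, hAM⟩
  have hinv : ∀ a : G, ∀ x y : E, inner ℝ (L a x) y = inner ℝ x (L a⁻¹ y) := by
    intro a x y
    rw [← (L a).inner_map_map x (L a⁻¹ y), ← hL, mul_inv_cancel, hL1]
  let B : A → (E →ₗ[ℝ] E) := fun a => (L a).toLinearEquiv.toLinearMap
  have hBa : ∀ (a : A) x, B a x = L a x := fun a x => rfl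
  have hmin' : ∀ V : Submodule ℝ E, V ≤ U → V ≠ ⊥ → (∀ i, ∀ x ∈ V, B i x ∈ V) → V = U := by
    intro V hVU hVne hVA
    by_contra hne
    exact hmin V ⟨hVU.trans hUM, hVne, fun a ha x hx => hVA ⟨a, ha⟩ x hx⟩
      (lt_of_le_of_ne hVU hne)
  have hcomm : ∀ a ∈ A, ∀ b ∈ A, ∀ x, L a (L b x) = L b (L a x) := by
    intro a ha b hb x
    rw [← hL, ← hL, hA a ha b hb]
  -- symmetric and skew parts
  let sy : A → (E →ₗ[ℝ] E) := fun a => B a + B a⁻¹
  let sk : A → (E →ₗ[ℝ] E) := fun a => B a - B a⁻¹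
  have hsy : ∀ a x, sy a x = L a x + L (a : G)⁻¹ x := fun a x => rfl
  have hsk : ∀ a x, sk a x = L a x - L (a : G)⁻¹ x := fun a x => rfl
  have hsym : ∀ a x y, inner ℝ (sy a x) y = inner ℝ x (sy a y) := by
    intro a x y
    rw [hsy, hsy, inner_add_left, inner_add_right, hinv, hinv, inv_inv, add_comm]
  have hskm : ∀ a x y, inner ℝ (sk a x) y = - inner ℝ x (sk a y) := by
    intro a x y
    rw [hsk, hsk, inner_sub_left, inner_sub_right, hinv, hinv, inv_inv]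
    ring
  have hskU : ∀ a, ∀ x ∈ U, sk a x ∈ U := fun a x hx =>
    U.sub_mem (hUA _ a.2 x hx) (hUA _ (A.inv_mem a.2) x hx)
  have hsyU : ∀ a, ∀ x ∈ U, sy a x ∈ U := fun a x hx =>
    U.add_mem (hUA _ a.2 x hx) (hUA _ (A.inv_mem a.2) x hx)
  have hskc : ∀ a (b : A) x, sk a (B b x) = B b (sk a x) := by
    intro a b x
    simp only [hsk, hBa, map_sub]
    rw [hcomm _ a.2 _ b.2, hcomm _ (A.inv_mem a.2) _ b.2]
  have hsyc : ∀ a (b : A) x, sy a (B b x) = B b (sy a x) := by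
    intro a b x
    simp only [hsy, hBa, map_add]
    rw [hcomm _ a.2 _ b.2, hcomm _ (A.inv_mem a.2) _ b.2]
  have hskk : ∀ a b x, sk a (sk b x) = sk b (sk a x) := by
    intro a b x
    have h1 : sk b x = B b x - B b⁻¹ x := rfl
    have h2 : sk b (sk a x) = B b (sk a x) - B b⁻¹ (sk a x) := rfl
    rw [h2, h1, map_sub, hskc, hskc]
  have hal : ∀ a, ∃ c : ℝ, ∀ x ∈ U, sy a x = c • x := fun a =>
    scalar_of_symm B U hUne (fun i x hx => hUA _ i.2 x hx) hmin' (sy a) (hsym a) (hsyU a)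
      (hsyc a)
  have hga : ∀ a b, ∃ c : ℝ, ∀ x ∈ U, sk a (sk b x) = c • x := by
    intro a b
    obtain ⟨c, hc⟩ := scalar_of_symm B U hUne (fun i x hx => hUA _ i.2 x hx) hmin'
      (sk a ∘ₗ sk b) (fun x y => by
        simp only [LinearMap.comp_apply]
        rw [hskm, hskm, neg_neg, hskk]) (fun x hx => hskU _ _ (hskU _ _ hx))
      (fun i x => by
        simp only [LinearMap.comp_apply]
        rw [hskc, hskc])
    exact ⟨c, hc⟩
  have hhalf : ∀ (a : A) x, L a x = (1 / 2 : ℝ) • sy a x + (1 / 2 : ℝ) • sk a x := by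
    intro a x
    rw [hsy, hsk]
    module
  obtain ⟨w, hwU, hw0⟩ := (Submodule.ne_bot_iff U).1 hUne
  by_cases hcase : ∀ a : A, ∀ x ∈ U, sk a x = 0
  · refine ⟨Submodule.span ℝ {w}, ?_, ?_, ?_, ?_⟩
    · exact (Submodule.span_singleton_le_iff_mem w U).2 hwU |>.trans hUM
    · rw [Ne, Submodule.span_singleton_eq_bot]
      exact hw0
    · intro a ha x hx
      obtain ⟨t, rfl⟩ := Submodule.mem_span_singleton.1 hx
      obtain ⟨c, hc⟩ := hal ⟨a, ha⟩
      rw [map_smul]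
      apply Submodule.smul_mem
      have h1 := hhalf ⟨a, ha⟩ w
      rw [hc w hwU, hcase ⟨a, ha⟩ w hwU, smul_zero, add_zero] at h1
      rw [show L a w = L (⟨a, ha⟩ : A) w from rfl, h1]
      exact Submodule.smul_mem _ _ (Submodule.smul_mem _ _ (Submodule.mem_span_singleton_self w))
    · exact (finrank_span_singleton (K := ℝ) hw0).le.trans (by norm_num)
  · push Not at hcase
    obtain ⟨a₀, x₀, hx₀U, hx₀⟩ := hcase
    obtain ⟨γ₀, hγ₀⟩ := hga a₀ a₀
    have hγne : γ₀ ≠ 0 := by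
      intro h0
      have h1 : inner ℝ (sk a₀ x₀) (sk a₀ x₀) = - inner ℝ x₀ (sk a₀ (sk a₀ x₀)) := hskm _ _ _
      rw [hγ₀ x₀ hx₀U, h0, zero_smul, inner_zero_right, neg_zero] at h1
      exact hx₀ (inner_self_eq_zero.1 h1)
    have hskb : ∀ b, ∃ c : ℝ, ∀ x ∈ U, sk b x = c • sk a₀ x := by
      intro b
      obtain ⟨γ, hγ⟩ := hga b a₀
      refine ⟨γ / γ₀, fun x hx => ?_⟩
      have h1 := hγ (sk a₀ x) (hskU _ _ hx)
      rw [hγ₀ x hx, map_smul] at h1
      rw [div_eq_inv_mul, mul_smul, ← h1, smul_smul, inv_mul_cancel₀ hγne, one_smul]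
    have hstep : ∀ b : A, ∃ α β : ℝ, ∀ x ∈ U, L b x = α • x + β • sk a₀ x := by
      intro b
      obtain ⟨c, hc⟩ := hal b
      obtain ⟨c', hc'⟩ := hskb b
      refine ⟨1 / 2 * c, 1 / 2 * c', fun x hx => ?_⟩
      rw [hhalf, hc x hx, hc' x hx, smul_smul, smul_smul]
    refine ⟨Submodule.span ℝ {x₀, sk a₀ x₀}, ?_, ?_, ?_, ?_⟩
    · refine le_trans ?_ hUM
      rw [Submodule.span_le]
      rintro z (rfl | rfl)
      · exact hx₀U
      · exact hskU _ _ hx₀U
    · rw [Submodule.ne_bot_iff]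
      refine ⟨sk a₀ x₀, Submodule.subset_span (by simp), hx₀⟩
    · intro b hb x hx
      obtain ⟨α, β, hαβ⟩ := hstep ⟨b, hb⟩
      obtain ⟨p, q, rfl⟩ := Submodule.mem_span_pair.1 hx
      have h1 : L b (p • x₀ + q • sk a₀ x₀) =
          p • (α • x₀ + β • sk a₀ x₀) + q • (α • sk a₀ x₀ + β • (γ₀ • x₀)) := by
        rw [map_add, map_smul, map_smul]
        have e1 : L b x₀ = α • x₀ + β • sk a₀ x₀ := hαβ x₀ hx₀U
        have e2 : L b (sk a₀ x₀) = α • sk a₀ x₀ + β • (γ₀ • x₀) := by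
          have := hαβ (sk a₀ x₀) (hskU _ _ hx₀U)
          rw [hγ₀ x₀ hx₀U] at this
          exact this
        rw [e1, e2]
      rw [h1, Submodule.mem_span_pair]
      refine ⟨p * α + q * β * γ₀, p * β + q * α, ?_⟩
      module
    · have h1 := finrank_span_finset_le_card (R := ℝ) ({x₀, sk a₀ x₀} : Finset E)
      have h2 : (({x₀, sk a₀ x₀} : Finset E) : Set E) = {x₀, sk a₀ x₀} := by simp
      rw [h2] at h1
      exact h1.trans Finset.card_le_two

/-- finite suprema of images have bounded dimension -/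
lemma finrank_sup_le {κ : Type*} [DecidableEq κ] (R : Finset κ) (V : κ → Submodule ℝ E)
    (hV : ∀ r, finrank ℝ (V r) ≤ 2) : finrank ℝ (R.sup V : Submodule ℝ E) ≤ 2 * R.card := by
  induction R using Finset.induction_on with
  | empty => simp
  | insert a s ha ih =>
    rw [Finset.sup_insert, Finset.card_insert_of_notMem ha]
    have h1 := Submodule.finrank_add_le_finrank_add_finrank (V a) (s.sup V)
    have h2 := hV a
    omega

/-- a nonzero subspace invariant under a group of linear isometries with an abelian subgroup of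
index at most `m` contains a nonzero invariant subspace of dimension at most `2 m` -/
lemma bounded {G : Type*} [Group G] (L : G → (E ≃ₗᵢ[ℝ] E))
    (hL : ∀ g h x, L (g * h) x = L g (L h x)) (hL1 : ∀ x, L 1 x = x)
    (A : Subgroup G) (hA : ∀ a ∈ A, ∀ b ∈ A, a * b = b * a) (m : ℕ) (R : Finset G)
    (hR : R.card ≤ m) (hGR : ∀ g : G, ∃ r ∈ R, ∃ a ∈ A, g = r * a)
    (M : Submodule ℝ E) (hM : M ≠ ⊥) (hGM : ∀ g, ∀ x ∈ M, L g x ∈ M) :
    ∃ W : Submodule ℝ E, W ≤ M ∧ W ≠ ⊥ ∧ (∀ g, ∀ x ∈ W, L g x ∈ W) ∧ finrank ℝ W ≤ 2 * m := by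
  classical
  obtain ⟨U, hUM, hUne, hUA, hU2⟩ := abel L hL hL1 A hA M hM (fun a _ x hx => hGM a x hx)
  let V : G → Submodule ℝ E := fun g => U.map (L g).toLinearEquiv.toLinearMap
  have hmemV : ∀ g x, x ∈ V g ↔ ∃ u ∈ U, L g u = x := fun g x => Submodule.mem_map
  have hVle : ∀ g : G, V g ≤ R.sup V := by
    intro g
    obtain ⟨r, hr, a, ha, rfl⟩ := hGR g
    refine le_trans ?_ (Finset.le_sup (f := V) hr)
    intro x hx
    obtain ⟨u, hu, rfl⟩ := (hmemV _ _).1 hx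
    exact (hmemV _ _).2 ⟨L a u, hUA a ha u hu, (hL _ _ _).symm⟩
  refine ⟨R.sup V, ?_, ?_, ?_, ?_⟩
  · refine Finset.sup_le fun r _ => ?_
    intro x hx
    obtain ⟨u, hu, rfl⟩ := (hmemV _ _).1 hx
    exact hGM r u (hUM hu)
  · obtain ⟨w, hwU, hw0⟩ := (Submodule.ne_bot_iff U).1 hUne
    rw [Submodule.ne_bot_iff]
    exact ⟨w, hVle 1 ((hmemV _ _).2 ⟨w, hwU, hL1 w⟩), hw0⟩
  · intro g x hx
    have key : R.sup V ≤ (R.sup V).comap (L g).toLinearEquiv.toLinearMap := by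
      refine Finset.sup_le fun r _ => ?_
      intro y hy
      obtain ⟨u, hu, rfl⟩ := (hmemV _ _).1 hy
      rw [Submodule.mem_comap]
      exact hVle (g * r) ((hmemV _ _).2 ⟨u, hu, hL _ _ _⟩)
    exact key hx
  · refine (finrank_sup_le R V fun r => ?_).trans (Nat.mul_le_mul_left 2 hR)
    exact (Submodule.finrank_map_le _ _).trans hU2

end Pool.Agent.KS6_91.TS
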