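import Pool.Agent.KS6_91.TS.Root
import Pool.Agent.KS6_91.TS.Small

/-!
# The roots of type `D_d` in orbits of groups with an abelian subgroup of small index
-/

set_option autoImplicit false

namespace Pool.Agent.KS6_91.TS

open Module

section
variable {E : Type*} [NormedAddCommGroup E] [InnerProductSpace ℝ E] [FiniteDimensional ℝ E]

lemma norm_proj {g : E ≃ₗᵢ[ℝ] E} {W : Submodule ℝ E} (h1 : ∀ w ∈ W, g w ∈ W)
    (h2 : ∀ w ∈ W, g.symm w ∈ W) (z : E) :
    ‖W.starProjection (g z)‖ = ‖W.starProjection z‖ := by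
  have h3 : W.starProjection (g z) = g (W.starProjection z) := by
    apply Submodule.eq_starProjection_of_mem_orthogonal
    · exact h1 _ (Submodule.starProjection_apply_mem _ _)
    · rw [← map_sub, Submodule.mem_orthogonal]
      intro w hw
      have h4 : z - W.starProjection z ∈ Wᗮ := Submodule.sub_starProjection_mem_orthogonal _
      rw [Submodule.mem_orthogonal] at h4
      have h5 := h4 (g.symm w) (h2 w hw)
      rw [← g.inner_map_map, g.apply_symm_apply] at h5
      exact h5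
  rw [h3, g.norm_map]

end

/-- a finite set which is mapped onto itself by a group of isometries has a fixed centre -/
lemma fixed_centre {n : ℕ} (Y : Set (EuclideanSpace ℝ (Fin n))) (hY : Y.Finite) (hne : Y.Nonempty) :
    ∃ c : EuclideanSpace ℝ (Fin n),
      ∀ h : EuclideanSpace ℝ (Fin n) ≃ᵢ EuclideanSpace ℝ (Fin n), ⇑h '' Y = Y → h c = c := by
  classical
  let F := hY.toFinset
  have hF0 : (F.card : ℝ) ≠ 0 := by
    have : F.Nonempty := by
      obtain ⟨y, hy⟩ := hne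
      exact ⟨y, hY.mem_toFinset.2 hy⟩
    exact_mod_cast this.card_pos.ne'
  refine ⟨(F.card : ℝ)⁻¹ • ∑ y ∈ F, y, fun h hh => ?_⟩
  let T := h.toRealLinearIsometryEquiv
  have hT : ∀ x, h x = T x + h 0 := by
    intro x
    rw [IsometryEquiv.toRealLinearIsometryEquiv_apply, sub_add_cancel]
  have himg : F.image h = F := by
    ext z
    rw [Finset.mem_image, hY.mem_toFinset]
    constructor
    · rintro ⟨y, hy, rfl⟩
      rw [← hh]
      exact ⟨y, hY.mem_toFinset.1 hy, rfl⟩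
    · intro hz
      rw [← hh] at hz
      obtain ⟨y, hy, rfl⟩ := hz
      exact ⟨y, hY.mem_toFinset.2 hy, rfl⟩
  have hsum : ∑ y ∈ F, h y = ∑ y ∈ F, y := by
    conv_rhs => rw [← himg]
    rw [Finset.sum_image fun x _ y _ hxy => h.injective hxy]
  have hsum2 : ∑ y ∈ F, h y = T (∑ y ∈ F, y) + (F.card : ℝ) • h 0 := by
    rw [Finset.sum_congr rfl fun y _ => hT y, Finset.sum_add_distrib, ← map_sum, Finset.sum_const,
      Nat.cast_smul_eq_nsmul]
  rw [hT, map_smul]
  have h3 : T (∑ y ∈ F, y) = ∑ y ∈ F, y - (F.card : ℝ) • h 0 :=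
    eq_sub_of_add_eq (hsum2.symm.trans hsum)
  rw [h3, smul_sub, smul_smul, inv_mul_cancel₀ hF0, one_smul, sub_add_cancel]

/-- the linear isometry `x ↦ h (x + c) - c` for an isometry `h` which fixes `c` -/
noncomputable def lin {n : ℕ} (c : EuclideanSpace ℝ (Fin n))
    (h : EuclideanSpace ℝ (Fin n) ≃ᵢ EuclideanSpace ℝ (Fin n)) (hc : h c = c) :
    EuclideanSpace ℝ (Fin n) ≃ₗᵢ[ℝ] EuclideanSpace ℝ (Fin n) :=
  (((IsometryEquiv.addRight c).trans h).trans
    (IsometryEquiv.addRight (-c))).toRealLinearIsometryEquivOfMapZero (by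
      show h (0 + c) + -c = 0
      rw [zero_add, hc, add_neg_cancel])

lemma lin_apply {n : ℕ} (c : EuclideanSpace ℝ (Fin n))
    (h : EuclideanSpace ℝ (Fin n) ≃ᵢ EuclideanSpace ℝ (Fin n)) (hc : h c = c)
    (x : EuclideanSpace ℝ (Fin n)) : lin c h hc x = h (x + c) - c := by
  unfold lin
  rw [IsometryEquiv.coe_toRealLinearIsometryEquivOfMapZero, sub_eq_add_neg]
  rfl

/-- no isometric copy of the roots of type `D_d` lies in a finite set on which a group of
symmetries with an abelian subgroup of index less than `d / 2` acts transitively -/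
theorem not_bounded (m d : ℕ) (hm : 1 ≤ m) (hd : 2 * m < d) (n : ℕ)
    (Y : Set (EuclideanSpace ℝ (Fin n))) (hY : Y.Finite)
    (H A : Subgroup (EuclideanSpace ℝ (Fin n) ≃ᵢ EuclideanSpace ℝ (Fin n)))
    (hA : ∀ a ∈ A, ∀ b ∈ A, a * b = b * a)
    (hi0 : A.relIndex H ≠ 0) (hi : A.relIndex H ≤ m)
    (hHY : ∀ h ∈ H, ⇑h '' Y = Y) (htr : ∀ y ∈ Y, ∀ z ∈ Y, ∃ h ∈ H, h y = z)
    (f : EuclideanSpace ℝ (Fin d) → EuclideanSpace ℝ (Fin n)) (hf : Isometry f)
    (hfY : f '' roots d ⊆ Y) : False := by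
  classical
  -- a root
  have hd0 : 0 < d := by omega
  let i0 : Fin d := ⟨0, by omega⟩
  let i1 : Fin d := ⟨1, by omega⟩
  have hx0 : (EuclideanSpace.single i0 1 + EuclideanSpace.single i1 1 :
      EuclideanSpace ℝ (Fin d)) ∈ roots d :=
    ⟨i0, i1, 1, 1, by simp [i0, i1, Fin.ext_iff], Or.inl rfl, Or.inl rfl, rfl⟩
  set x0 : EuclideanSpace ℝ (Fin d) := EuclideanSpace.single i0 1 + EuclideanSpace.single i1 1
  have hfx0 : f x0 ∈ Y := hfY ⟨x0, hx0, rfl⟩
  obtain ⟨c, hc⟩ := fixed_centre Y hY ⟨_, hfx0⟩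
  let L : H → (EuclideanSpace ℝ (Fin n) ≃ₗᵢ[ℝ] EuclideanSpace ℝ (Fin n)) :=
    fun h => lin c h.1 (hc h.1 (hHY h.1 h.2))
  have hLapp : ∀ (h : H) x, L h x = h.1 (x + c) - c := fun h x => lin_apply _ _ _ _
  have hL : ∀ (g h : H) x, L (g * h) x = L g (L h x) := by
    intro g h x
    rw [hLapp, hLapp, hLapp, sub_add_cancel]
    rfl
  have hL1 : ∀ x, L 1 x = x := by
    intro x
    rw [hLapp]
    show (x + c) - c = x
    rw [add_sub_cancel_right]
  have hLinv : ∀ (g : H) x, L g (L g⁻¹ x) = x := by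
    intro g x
    rw [← hL, mul_inv_cancel, hL1]
  -- the abelian subgroup and its cosets
  let A' : Subgroup H := A.subgroupOf H
  have hA' : ∀ a ∈ A', ∀ b ∈ A', a * b = b * a := by
    intro a ha b hb
    exact Subtype.ext (hA a.1 (Subgroup.mem_subgroupOf.1 ha) b.1 (Subgroup.mem_subgroupOf.1 hb))
  have hidx : A'.index = A.relIndex H := rfl
  have hfin : A'.FiniteIndex := ⟨by rw [hidx]; exact hi0⟩
  have hfq : Fintype (H ⧸ A') := Fintype.ofFinite _
  let R : Finset H := Finset.univ.image (fun q : H ⧸ A' => q.out)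
  have hR : R.card ≤ m := by
    refine Finset.card_image_le.trans ?_
    rw [Finset.card_univ, ← Nat.card_eq_fintype_card, ← Subgroup.index_eq_card, hidx]
    exact hi
  have hGR : ∀ g : H, ∃ r ∈ R, ∃ a ∈ A', g = r * a := by
    intro g
    refine ⟨(QuotientGroup.mk g : H ⧸ A').out, Finset.mem_image_of_mem _ (Finset.mem_univ _),
      ((QuotientGroup.mk g : H ⧸ A').out)⁻¹ * g, ?_, ?_⟩
    · rw [← QuotientGroup.eq, QuotientGroup.out_eq']
    · rw [mul_inv_cancel_left]
  -- the linear part of `f`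
  let T : EuclideanSpace ℝ (Fin d) →ₗᵢ[ℝ] EuclideanSpace ℝ (Fin n) :=
    hf.affineIsometryOfStrictConvexSpace.linearIsometry
  have hfT : ∀ x, f x = T x + f 0 := by
    intro x
    have h1 := hf.affineIsometryOfStrictConvexSpace.map_vsub x 0
    simp only [vsub_eq_sub, sub_zero, Isometry.coe_affineIsometryOfStrictConvexSpace] at h1
    rw [← sub_eq_iff_eq_add]
    exact h1.symm
  -- small invariant subspaces are orthogonal to the image of `T`
  let Inv : Set (Submodule ℝ (EuclideanSpace ℝ (Fin n))) :=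
    {W | (∀ g : H, ∀ x ∈ W, L g x ∈ W) ∧ finrank ℝ W ≤ 2 * m}
  have horth : ∀ W ∈ Inv, ∀ x, T x ∈ Wᗮ := by
    rintro W ⟨hW1, hW2⟩ x
    let S : EuclideanSpace ℝ (Fin d) →ₗ[ℝ] W :=
      (W.orthogonalProjectionOnto : EuclideanSpace ℝ (Fin n) →ₗ[ℝ] W) ∘ₗ T.toLinearMap
    have hS : S = 0 := by
      refine key (by omega) (lt_of_le_of_lt hW2 hd) S (W.orthogonalProjectionOnto (f 0 - c))
        (‖W.orthogonalProjectionOnto (f x0 - c)‖ ^ 2) ?_
      intro z hz
      obtain ⟨h, hh, hhz⟩ := htr (f x0) hfx0 (f z) (hfY ⟨z, hz, rfl⟩)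
      have h1 : W.orthogonalProjectionOnto (f 0 - c) + S z = W.orthogonalProjectionOnto (f z - c) := by
        show W.orthogonalProjectionOnto (f 0 - c) + W.orthogonalProjectionOnto (T z) = _
        rw [← map_add, hfT z]
        congr 1
        abel
      have h2 : f z - c = L ⟨h, hh⟩ (f x0 - c) := by
        rw [hLapp, sub_add_cancel, hhz]
      rw [h1, h2]
      have h3 := norm_proj (g := L ⟨h, hh⟩) (W := W) (hW1 _) (by
        intro w hw
        have h4 := hW1 (⟨h, hh⟩⁻¹) w hw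
        have h5 : L (⟨h, hh⟩⁻¹) w = (L ⟨h, hh⟩).symm w := by
          apply (L ⟨h, hh⟩).injective
          rw [hLinv, (L ⟨h, hh⟩).apply_symm_apply]
        rw [← h5]
        exact h4) (f x0 - c)
      exact congrArg (fun t : ℝ => t ^ 2) h3
    have h1 : W.orthogonalProjectionOnto (T x) = 0 := by
      have : S x = 0 := by rw [hS]; rfl
      exact this
    rwa [Submodule.orthogonalProjectionOnto_eq_zero_iff] at h1
  let M : Submodule ℝ (EuclideanSpace ℝ (Fin n)) := ⨅ W ∈ Inv, Wᗮ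
  have hMmem : ∀ z, z ∈ M ↔ ∀ W ∈ Inv, z ∈ Wᗮ := by
    intro z
    simp only [M, Submodule.mem_iInf]
  have hMne : M ≠ ⊥ := by
    rw [Submodule.ne_bot_iff]
    refine ⟨T (EuclideanSpace.single i0 1), (hMmem _).2 fun W hW => horth W hW _, ?_⟩
    intro h0
    have h1 := T.norm_map (EuclideanSpace.single i0 (1 : ℝ))
    rw [h0, norm_zero] at h1
    simp at h1
  have hMinv : ∀ g : H, ∀ z ∈ M, L g z ∈ M := by
    intro g z hz
    rw [hMmem] at hz ⊢
    intro W hW
    rw [Submodule.mem_orthogonal]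
    intro w hw
    have h1 := (Submodule.mem_orthogonal _ _).1 (hz W hW) (L g⁻¹ w) (hW.1 g⁻¹ w hw)
    rw [← (L g).inner_map_map, hLinv] at h1
    exact h1
  obtain ⟨W, hWM, hWne, hWinv, hWdim⟩ := bounded L hL hL1 A' hA' m R hR hGR M hMne hMinv
  obtain ⟨w, hwW, hw0⟩ := (Submodule.ne_bot_iff W).1 hWne
  have h1 := (hMmem w).1 (hWM hwW) W ⟨hWinv, hWdim⟩
  have h2 := (Submodule.mem_orthogonal _ _).1 h1 w hwW
  exact hw0 (inner_self_eq_zero.1 h2)

end Pool.Agent.KS6_91.TS
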