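import Pool.Agent.KS6_91.TS.PG

/-!
# The roots `±e_i ± e_j`
-/

set_option autoImplicit false

namespace Pool.Agent.KS6_91.TS

open Module

/-- the roots of type `D_d`: the vectors `±e_i ± e_j` with `i ≠ j` of `ℝ^d` -/
def roots (d : ℕ) : Set (EuclideanSpace ℝ (Fin d)) :=
  {x | ∃ (i j : Fin d) (s t : ℝ), i ≠ j ∧ (s = 1 ∨ s = -1) ∧ (t = 1 ∨ t = -1) ∧
    x = EuclideanSpace.single i s + EuclideanSpace.single j t}

lemma roots_finite (d : ℕ) : (roots d).Finite := by
  have h : (Set.univ ×ˢ Set.univ ×ˢ ({1, -1} : Set ℝ) ×ˢ ({1, -1} : Set ℝ) :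
      Set (Fin d × Fin d × ℝ × ℝ)).Finite :=
    (Set.toFinite _).prod ((Set.toFinite _).prod ((Set.toFinite _).prod (Set.toFinite _)))
  refine (h.image (fun q => (EuclideanSpace.single q.1 q.2.2.1 +
    EuclideanSpace.single q.2.1 q.2.2.2 : EuclideanSpace ℝ (Fin d)))).subset ?_
  rintro x ⟨i, j, s, t, -, hs, ht, rfl⟩
  exact ⟨(i, j, s, t), ⟨trivial, trivial, by simpa using hs, by simpa using ht⟩, rfl⟩

/-- the signed permutation of the coordinates -/
noncomputable def sgn {d : ℕ} (π : Equiv.Perm (Fin d)) (ε : Fin d → ℝ) (hε : ∀ a, ε a * ε a = 1) :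
    EuclideanSpace ℝ (Fin d) ≃ᵢ EuclideanSpace ℝ (Fin d) :=
  IsometryEquiv.mk' (fun x => WithLp.toLp 2 (fun a => ε a * x (π.symm a)))
    (fun x => WithLp.toLp 2 (fun a => ε (π a) * x (π a)))
    (by
      intro x
      ext a
      show ε a * (ε (π (π.symm a)) * x (π (π.symm a))) = x a
      rw [Equiv.apply_symm_apply, ← mul_assoc, hε, one_mul])
    (by
      refine Isometry.of_dist_eq fun x y => ?_
      rw [EuclideanSpace.dist_eq, EuclideanSpace.dist_eq]
      congr 1
      rw [← Equiv.sum_comp π.symm (fun a => dist (x a) (y a) ^ 2)]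
      refine Finset.sum_congr rfl fun a _ => ?_
      show dist (ε a * x (π.symm a)) (ε a * y (π.symm a)) ^ 2 = _
      rw [Real.dist_eq, Real.dist_eq, sq_abs, sq_abs, ← mul_sub, mul_pow, pow_two (ε a), hε,
        one_mul])

lemma sgn_apply {d : ℕ} (π : Equiv.Perm (Fin d)) (ε : Fin d → ℝ) (hε : ∀ a, ε a * ε a = 1)
    (x : EuclideanSpace ℝ (Fin d)) (a : Fin d) : sgn π ε hε x a = ε a * x (π.symm a) := rfl

lemma sgn_root {d : ℕ} (π : Equiv.Perm (Fin d)) (ε : Fin d → ℝ) (hε : ∀ a, ε a * ε a = 1)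
    (i j : Fin d) (s t : ℝ) :
    sgn π ε hε (EuclideanSpace.single i s + EuclideanSpace.single j t)
      = EuclideanSpace.single (π i) (ε (π i) * s) + EuclideanSpace.single (π j) (ε (π j) * t) := by
  ext a
  rw [sgn_apply]
  simp only [PiLp.add_apply, PiLp.single_apply]
  have h1 : ∀ k, (π.symm a = k) = (a = π k) := by
    intro k
    exact propext (Equiv.symm_apply_eq π)
  simp only [h1]
  by_cases ha : a = π i <;> by_cases hb : a = π j
  · subst ha; simp [hb, mul_add]
  · subst ha; simp [hb]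
  · subst hb; simp [ha]
  · simp [ha, hb]

lemma roots_transitive (d : ℕ) : IsTransitiveSet (roots d) := by
  rintro _ ⟨i, j, s, t, hij, hs, ht, rfl⟩ _ ⟨k, l, s', t', hkl, hs', ht', rfl⟩
  obtain ⟨π, hπi, hπj⟩ : ∃ π : Equiv.Perm (Fin d), π i = k ∧ π j = l := by
    let π₁ := Equiv.swap i k
    have h1 : π₁ i = k := Equiv.swap_apply_left i k
    have h2 : π₁ j ≠ k := by
      intro h
      exact hij (π₁.injective (h1.trans h.symm))
    refine ⟨π₁.trans (Equiv.swap (π₁ j) l), ?_, ?_⟩
    · rw [Equiv.trans_apply, h1]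
      exact Equiv.swap_apply_of_ne_of_ne h2.symm hkl
    · rw [Equiv.trans_apply]
      exact Equiv.swap_apply_left _ _
  have hsq : ∀ u : ℝ, (u = 1 ∨ u = -1) → u * u = 1 := by
    rintro u (rfl | rfl) <;> norm_num
  let ε : Fin d → ℝ := fun a => if a = k then s' * s else if a = l then t' * t else 1
  have hε : ∀ a, ε a * ε a = 1 := by
    intro a
    simp only [ε]
    split_ifs
    · rw [show s' * s * (s' * s) = (s' * s') * (s * s) by ring, hsq _ hs, hsq _ hs', one_mul]
    · rw [show t' * t * (t' * t) = (t' * t') * (t * t) by ring, hsq _ ht, hsq _ ht', one_mul]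
    · norm_num
  have hε' : ∀ a, ε a = 1 ∨ ε a = -1 := fun a => mul_self_eq_one_iff.1 (hε a)
  refine ⟨sgn π ε hε, ?_, ?_⟩
  · have hsub : ⇑(sgn π ε hε) '' roots d ⊆ roots d := by
      rintro _ ⟨_, ⟨i', j', u, v, hne, hu, hv, rfl⟩, rfl⟩
      rw [sgn_root]
      refine ⟨π i', π j', _, _, fun h => hne (π.injective h), ?_, ?_, rfl⟩
      · rcases hε' (π i') with h | h <;> rcases hu with h' | h' <;> rw [h, h'] <;> norm_num
      · rcases hε' (π j') with h | h <;> rcases hv with h' | h' <;> rw [h, h'] <;> norm_num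
    refine Set.eq_of_subset_of_ncard_le hsub ?_ (roots_finite d)
    rw [Set.ncard_image_of_injective _ (sgn π ε hε).injective]
  · rw [sgn_root, hπi, hπj]
    have e1 : ε k = s' * s := by simp [ε]
    have e2 : ε l = t' * t := by simp [ε, hkl.symm]
    rw [e1, e2, mul_assoc, mul_assoc, hsq _ hs, hsq _ ht, mul_one, mul_one]

/-- an affine map into a space of dimension less than `d` which has constant norm on the roots
is constant -/
lemma key {d : ℕ} (hd : 3 ≤ d) {W : Type*} [NormedAddCommGroup W] [InnerProductSpace ℝ W]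
    [FiniteDimensional ℝ W] (hW : finrank ℝ W < d) (S : EuclideanSpace ℝ (Fin d) →ₗ[ℝ] W)
    (b : W) (κ : ℝ) (h : ∀ x ∈ roots d, ‖b + S x‖ ^ 2 = κ) : S = 0 := by
  let u : Fin d → W := fun i => S (EuclideanSpace.single i 1)
  have hu : ∀ i (s : ℝ), S (EuclideanSpace.single i s) = s • u i := by
    intro i s
    rw [← map_smul]
    congr 1
    ext a
    simp
  have hst : ∀ i j, i ≠ j → ∀ s t : ℝ, (s = 1 ∨ s = -1) → (t = 1 ∨ t = -1) →
      ‖b‖ ^ 2 + s * s * ‖u i‖ ^ 2 + t * t * ‖u j‖ ^ 2 + 2 * s * inner ℝ b (u i)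
        + 2 * t * inner ℝ b (u j) + 2 * s * t * inner ℝ (u i) (u j) = κ := by
    intro i j hij s t hs ht
    have h1 := h _ ⟨i, j, s, t, hij, hs, ht, rfl⟩
    rw [map_add, hu, hu] at h1
    rw [← h1, norm_add_sq_real, norm_add_sq_real, norm_smul, norm_smul, inner_add_right,
      inner_smul_right, inner_smul_right, inner_smul_left, inner_smul_right, mul_pow, mul_pow,
      Real.norm_eq_abs, Real.norm_eq_abs, sq_abs, sq_abs]
    simp only [conj_trivial]
    ring
  have hpair : ∀ i j, i ≠ j → inner ℝ (u i) (u j) = 0 ∧ ‖u i‖ ^ 2 + ‖u j‖ ^ 2 = κ - ‖b‖ ^ 2 := by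
    intro i j hij
    have h1 := hst i j hij 1 1 (Or.inl rfl) (Or.inl rfl)
    have h2 := hst i j hij 1 (-1) (Or.inl rfl) (Or.inr rfl)
    have h3 := hst i j hij (-1) 1 (Or.inr rfl) (Or.inl rfl)
    have h4 := hst i j hij (-1) (-1) (Or.inr rfl) (Or.inr rfl)
    constructor <;> linarith
  have hnorm : ∀ i, ‖u i‖ ^ 2 = (κ - ‖b‖ ^ 2) / 2 := by
    intro i
    obtain ⟨j, hj⟩ : ∃ j : Fin d, j ≠ i := by
      by_contra hcon
      push Not at hcon
      have h0 := hcon ⟨0, by omega⟩
      have h1 := hcon ⟨1, by omega⟩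
      have := h0.trans h1.symm
      simp at this
    obtain ⟨k, hki, hkj⟩ : ∃ k : Fin d, k ≠ i ∧ k ≠ j := by
      by_contra hcon
      push Not at hcon
      have hsub : (Finset.univ : Finset (Fin d)) ⊆ {i, j} := by
        intro k _
        by_cases hk : k = i
        · simp [hk]
        · simp [hcon k hk]
      have := Finset.card_le_card hsub
      rw [Finset.card_univ, Fintype.card_fin] at this
      have := this.trans Finset.card_le_two
      omega
    have h1 := (hpair i j hj.symm).2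
    have h2 := (hpair j k hkj.symm).2
    have h3 := (hpair i k hki.symm).2
    linarith
  have hSx : ∀ x, S x = ∑ i, x i • u i := by
    intro x
    have h1 : x = ∑ i, EuclideanSpace.single i (x i) := by
      ext a
      rw [WithLp.ofLp_sum, Finset.sum_apply]
      simp [PiLp.single_apply]
    conv_lhs => rw [h1]
    rw [map_sum]
    exact Finset.sum_congr rfl fun i _ => hu i _
  have hker : LinearMap.ker S ≠ ⊥ := by
    apply LinearMap.ker_ne_bot_of_finrank_lt
    rwa [finrank_euclideanSpace_fin]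
  obtain ⟨x, hx, hx0⟩ := (Submodule.ne_bot_iff _).1 hker
  rw [LinearMap.mem_ker] at hx
  have hxS : ∑ i, x i • u i = 0 := by rw [← hSx, hx]
  have hzero : (κ - ‖b‖ ^ 2) / 2 = 0 := by
    obtain ⟨k, hk⟩ : ∃ k, x k ≠ 0 := by
      by_contra hcon
      push Not at hcon
      exact hx0 (by ext a; simpa using hcon a)
    have h1 : inner ℝ (∑ i, x i • u i) (u k) = 0 := by rw [hxS, inner_zero_left]
    rw [sum_inner, Finset.sum_eq_single k] at h1
    · rw [inner_smul_left, real_inner_self_eq_norm_sq, hnorm] at h1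
      simp only [conj_trivial] at h1
      rcases mul_eq_zero.1 h1 with h | h
      · exact absurd h hk
      · exact h
    · intro i _ hik
      rw [inner_smul_left, (hpair i k hik).1, mul_zero]
    · intro hh; exact absurd (Finset.mem_univ _) hh
  have hu0 : ∀ i, u i = 0 := by
    intro i
    have := hnorm i
    rw [hzero] at this
    exact norm_eq_zero.1 (pow_eq_zero_iff (two_ne_zero) |>.1 this)
  refine LinearMap.ext fun x => ?_
  rw [hSx, LinearMap.zero_apply]
  exact Finset.sum_eq_zero fun i _ => by rw [hu0, smul_zero]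

end Pool.Agent.KS6_91.TS
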